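import Mathlib

/-!
# Counting lattice points of a pyramid and of its section
-/

set_option autoImplicit false

open Finset

namespace Pool.Agent.X156.IO

/-- the interior lattice points of the dilated pyramid -/
noncomputable def Tf (t : ℕ) : Finset (ℤ × ℤ × ℤ) :=
  ((Icc 0 (t : ℤ)) ×ˢ (Icc 0 (t : ℤ)) ×ˢ (Icc 0 (t : ℤ))).filter
    fun p => 0 < p.2.2 ∧ p.2.2 < p.1 ∧ p.2.2 < p.2.1 ∧ p.1 + p.2.1 < t

theorem mem_Tf {t : ℕ} {p : ℤ × ℤ × ℤ} :
    p ∈ Tf t ↔ 0 < p.2.2 ∧ p.2.2 < p.1 ∧ p.2.2 < p.2.1 ∧ p.1 + p.2.1 < t := by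
  unfold Tf
  rw [mem_filter, mem_product, mem_product, mem_Icc, mem_Icc, mem_Icc]
  constructor
  · rintro ⟨_, h⟩
    exact h
  · intro h
    exact ⟨⟨by omega, by omega, by omega⟩, h⟩

/-- the layer -/
noncomputable def Tri (t : ℕ) : Finset (ℤ × ℤ) :=
  ((Icc 0 (t : ℤ)) ×ˢ (Icc 0 (t : ℤ))).filter fun p => 2 ≤ p.1 ∧ 2 ≤ p.2 ∧ p.1 + p.2 ≤ t + 1

theorem mem_Tri {t : ℕ} {p : ℤ × ℤ} : p ∈ Tri t ↔ 2 ≤ p.1 ∧ 2 ≤ p.2 ∧ p.1 + p.2 ≤ t + 1 := by
  unfold Tri
  rw [mem_filter, mem_product, mem_Icc, mem_Icc]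
  constructor
  · rintro ⟨_, h⟩
    exact h
  · intro h
    exact ⟨⟨by omega, by omega⟩, h⟩

theorem card_Tri (t : ℕ) (ht : 1 ≤ t) : 2 * ((Tri t).card : ℤ) = (t - 1) * (t - 2) := by
  induction t, ht using Nat.le_induction with
  | base =>
    have : Tri 1 = ∅ := by
      ext p
      rw [mem_Tri]
      simp only [notMem_empty, iff_false]
      push_cast
      omega
    rw [this]
    simp
  | succ t ht ih =>
    have h1 : Tri (t + 1) = Tri t ∪ (Icc 2 (t : ℤ)).image fun x => (x, (t : ℤ) + 2 - x) := by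
      ext ⟨x, y⟩
      rw [mem_union, mem_Tri, mem_Tri, mem_image]
      push_cast
      constructor
      · intro h
        by_cases h2 : x + y ≤ t + 1
        · left
          omega
        · right
          exact ⟨x, by rw [mem_Icc]; omega, by rw [Prod.mk.injEq]; omega⟩
      · rintro (h | ⟨z, hz, hzx⟩)
        · omega
        · rw [mem_Icc] at hz
          rw [Prod.mk.injEq] at hzx
          omega
    have h2 : Disjoint (Tri t) ((Icc 2 (t : ℤ)).image fun x => (x, (t : ℤ) + 2 - x)) := by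
      rw [disjoint_left]
      rintro ⟨x, y⟩ h3 h4
      rw [mem_Tri] at h3
      rw [mem_image] at h4
      obtain ⟨z, hz, hzx⟩ := h4
      rw [Prod.mk.injEq] at hzx
      simp only at h3
      omega
    rw [h1, card_union_of_disjoint h2, card_image_of_injective _ (fun a b h => by
      rw [Prod.mk.injEq] at h
      exact h.1), Int.card_Icc]
    push_cast
    have h3 : (((t : ℤ) + 1 - 2).toNat : ℤ) = t - 1 := by omega
    rw [h3]
    linarith

theorem card_Tf_step (t : ℕ) : (Tf (t + 2)).card = (Tf t).card + (Tri t).card := by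
  have h1 : Tf (t + 2) = (Tf t).image (fun p => (p.1 + 1, p.2.1 + 1, p.2.2 + 1)) ∪
      (Tri t).image fun q => (q.1, q.2, 1) := by
    ext ⟨x, y, z⟩
    rw [mem_union, mem_Tf, mem_image, mem_image]
    push_cast
    constructor
    · intro h
      by_cases hz : z = 1
      · right
        refine ⟨(x, y), ?_, ?_⟩
        · rw [mem_Tri]
          simp only at h ⊢
          omega
        · simp only [Prod.mk.injEq, true_and]
          omega
      · left
        refine ⟨(x - 1, y - 1, z - 1), ?_, ?_⟩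
        · rw [mem_Tf]
          simp only at h ⊢
          omega
        · simp only [Prod.mk.injEq]
          omega
    · rintro (⟨⟨a, b, c⟩, h, h2⟩ | ⟨⟨a, b⟩, h, h2⟩)
      · rw [mem_Tf] at h
        simp only [Prod.mk.injEq] at h h2
        omega
      · rw [mem_Tri] at h
        simp only [Prod.mk.injEq] at h h2
        omega
  have h2 : Disjoint ((Tf t).image (fun p => (p.1 + 1, p.2.1 + 1, p.2.2 + 1)))
      ((Tri t).image fun q => (q.1, q.2, (1 : ℤ))) := by
    rw [disjoint_left]
    rintro ⟨x, y, z⟩ h3 h4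
    rw [mem_image] at h3 h4
    obtain ⟨⟨a, b, c⟩, h5, h6⟩ := h3
    obtain ⟨⟨a', b'⟩, h7, h8⟩ := h4
    rw [mem_Tf] at h5
    simp only [Prod.mk.injEq] at h5 h6 h8
    omega
  rw [h1, card_union_of_disjoint h2, card_image_of_injective, card_image_of_injective]
  · rintro ⟨a, b⟩ ⟨c, d⟩ h
    simp only [Prod.mk.injEq] at h ⊢
    omega
  · rintro ⟨a, b, c⟩ ⟨a', b', c'⟩ h
    simp only [Prod.mk.injEq] at h ⊢
    omega

/-- the interior lattice points of the dilated section -/
noncomputable def Uf (t : ℕ) : Finset (ℤ × ℤ) :=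
  ((Icc 0 (t : ℤ)) ×ˢ (Icc 0 (t : ℤ))).filter fun p => 0 < p.2 ∧ p.2 < p.1 ∧ 2 * p.1 < t

theorem mem_Uf {t : ℕ} {p : ℤ × ℤ} : p ∈ Uf t ↔ 0 < p.2 ∧ p.2 < p.1 ∧ 2 * p.1 < t := by
  unfold Uf
  rw [mem_filter, mem_product, mem_Icc, mem_Icc]
  constructor
  · rintro ⟨_, h⟩
    exact h
  · intro h
    exact ⟨⟨by omega, by omega⟩, h⟩

theorem card_Uf_step (t : ℕ) (ht : 1 ≤ t) :
    ((Uf (t + 2)).card : ℤ) = (Uf t).card + ((t : ℤ) + 1) / 2 - 1 := by
  have h1 : Uf (t + 2) = (Uf t).image (fun p => (p.1 + 1, p.2 + 1)) ∪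
      (Icc 2 (((t : ℤ) + 1) / 2)).image fun x => (x, 1) := by
    ext ⟨x, z⟩
    rw [mem_union, mem_Uf, mem_image, mem_image]
    push_cast
    constructor
    · intro h
      by_cases hz : z = 1
      · right
        refine ⟨x, ?_, ?_⟩
        · rw [mem_Icc]
          omega
        · simp only [Prod.mk.injEq, true_and]
          omega
      · left
        refine ⟨(x - 1, z - 1), ?_, ?_⟩
        · rw [mem_Uf]
          simp only at h ⊢
          omega
        · simp only [Prod.mk.injEq]
          omega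
    · rintro (⟨⟨a, b⟩, h, h2⟩ | ⟨a, h, h2⟩)
      · rw [mem_Uf] at h
        simp only [Prod.mk.injEq] at h h2
        omega
      · rw [mem_Icc] at h
        simp only [Prod.mk.injEq] at h h2
        omega
  have h2 : Disjoint ((Uf t).image (fun p => (p.1 + 1, p.2 + 1)))
      ((Icc 2 (((t : ℤ) + 1) / 2)).image fun x => (x, (1 : ℤ))) := by
    rw [disjoint_left]
    rintro ⟨x, z⟩ h3 h4
    rw [mem_image] at h3 h4
    obtain ⟨⟨a, b⟩, h5, h6⟩ := h3
    obtain ⟨a', h7, h8⟩ := h4
    rw [mem_Uf] at h5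
    simp only [Prod.mk.injEq] at h5 h6 h8
    omega
  rw [h1, card_union_of_disjoint h2, card_image_of_injective, card_image_of_injective,
    Int.card_Icc]
  · push_cast
    omega
  · intro a b h
    simp only [Prod.mk.injEq] at h
    exact h.1
  · rintro ⟨a, b⟩ ⟨a', b'⟩ h
    simp only [Prod.mk.injEq] at h ⊢
    omega

theorem card_Tf_even (s : ℕ) (hs : 1 ≤ s) :
    6 * ((Tf (2 * s)).card : ℤ) = (s - 1) * (4 * s ^ 2 - 11 * s + 6) := by
  induction s, hs using Nat.le_induction with
  | base =>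
    have : Tf (2 * 1) = ∅ := by
      ext p
      rw [mem_Tf]
      simp only [notMem_empty, iff_false]
      push_cast
      omega
    rw [this]
    simp
  | succ s hs ih =>
    have h1 := card_Tf_step (2 * s)
    have h2 := card_Tri (2 * s) (by omega)
    rw [show 2 * (s + 1) = 2 * s + 2 by ring, h1]
    push_cast at h2 ⊢
    linear_combination ih + 3 * h2

theorem card_Tf_odd (s : ℕ) :
    6 * ((Tf (2 * s + 1)).card : ℤ) = (s - 1) * s * (4 * s - 5) := by
  induction s with
  | zero =>
    have : Tf (2 * 0 + 1) = ∅ := by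
      ext p
      rw [mem_Tf]
      simp only [notMem_empty, iff_false]
      push_cast
      omega
    rw [this]
    simp
  | succ s ih =>
    have h1 := card_Tf_step (2 * s + 1)
    have h2 := card_Tri (2 * s + 1) (by omega)
    rw [show 2 * (s + 1) + 1 = 2 * s + 1 + 2 by ring, h1]
    push_cast at h2 ⊢
    linear_combination ih + 3 * h2

theorem card_Uf_even (s : ℕ) (hs : 1 ≤ s) :
    2 * ((Uf (2 * s)).card : ℤ) = (s - 1) * (s - 2) := by
  induction s, hs using Nat.le_induction with
  | base =>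
    have : Uf (2 * 1) = ∅ := by
      ext p
      rw [mem_Uf]
      simp only [notMem_empty, iff_false]
      push_cast
      omega
    rw [this]
    simp
  | succ s hs ih =>
    have h1 := card_Uf_step (2 * s) (by omega)
    have h3 : (((2 * s : ℕ) : ℤ) + 1) / 2 = s := by omega
    rw [h3] at h1
    rw [show 2 * (s + 1) = 2 * s + 2 by ring, h1]
    push_cast
    linear_combination ih

theorem card_Uf_odd (s : ℕ) :
    2 * ((Uf (2 * s + 1)).card : ℤ) = s * (s - 1) := by
  induction s with
  | zero =>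
    have : Uf (2 * 0 + 1) = ∅ := by
      ext p
      rw [mem_Uf]
      simp only [notMem_empty, iff_false]
      push_cast
      omega
    rw [this]
    simp
  | succ s ih =>
    have h1 := card_Uf_step (2 * s + 1) (by omega)
    have h3 : (((2 * s + 1 : ℕ) : ℤ) + 1) / 2 = s + 1 := by omega
    rw [h3] at h1
    rw [show 2 * (s + 1) + 1 = 2 * s + 1 + 2 by ring, h1]
    push_cast
    linear_combination ih

/-- the lattice points off the section -/
theorem card_off (t : ℕ) :
    ((Tf t).filter fun p => p.1 ≠ p.2.1).card + (Uf t).card = (Tf t).card := by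
  have h1 : (Uf t).card = ((Tf t).filter fun p => ¬ p.1 ≠ p.2.1).card := by
    have : ((Tf t).filter fun p => ¬ p.1 ≠ p.2.1) = (Uf t).image fun q => (q.1, q.1, q.2) := by
      ext ⟨x, y, z⟩
      rw [mem_filter, mem_Tf, mem_image]
      constructor
      · rintro ⟨h, h2⟩
        push Not at h2
        refine ⟨(x, z), ?_, ?_⟩
        · rw [mem_Uf]
          simp only at h h2 ⊢
          omega
        · simp only [Prod.mk.injEq, true_and, and_true] at h2 ⊢
          exact h2
      · rintro ⟨⟨a, b⟩, h, h2⟩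
        rw [mem_Uf] at h
        simp only [Prod.mk.injEq] at h h2 ⊢
        push Not
        omega
    rw [this, card_image_of_injective]
    rintro ⟨a, b⟩ ⟨a', b'⟩ h
    simp only [Prod.mk.injEq] at h ⊢
    omega
  rw [h1]
  exact card_filter_add_card_filter_not _

end Pool.Agent.X156.IO
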